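import Pool.Agent.U136.DX.Stm

/-!
# Project DX, package DEGC: the near-resonant triads of a polynomial dispersion relation
-/

set_option autoImplicit false

namespace Pool.Agent.U423.DX.DEGC

open Pool.Agent.N983.RT Pool.Agent.U136.DS Pool.Agent.U136.DX

theorem polyD_P {D : ℕ} {p : Wv → ℝ} (hp : PolyD D p) (m : Wv) :
    PolyD D fun x => p x - p (x + m) + p m := by
  intro k i
  obtain ⟨q1, h1, h1'⟩ := hp k i
  obtain ⟨q2, h2, h2'⟩ := hp (k + m) i
  refine ⟨q1 - q2.comp (Polynomial.X + Polynomial.C (m i : ℝ)) + Polynomial.C (p m), ?_, ?_⟩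
  · have h3 : (q2.comp (Polynomial.X + Polynomial.C (m i : ℝ))).natDegree ≤ D := by
      rw [Polynomial.natDegree_comp, Polynomial.natDegree_X_add_C, mul_one]
      exact h2
    refine (Polynomial.natDegree_add_le _ _).trans
      (max_le ((Polynomial.natDegree_sub_le _ _).trans (max_le h1 h3)) ?_)
    rw [Polynomial.natDegree_C]
    exact Nat.zero_le _
  · intro t
    have h4 : Function.update k i t + m = Function.update (k + m) i (t + m i) := by
      ext j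
      by_cases hj : j = i
      · subst hj
        simp
      · simp [hj]
    simp only
    rw [h1', h4, h2' (t + m i)]
    simp

theorem sq_le_of_pow4 {x z : ℝ} (h : x ^ 4 / 2 ≤ z) : x ^ 2 ≤ Real.sqrt (2 * z) := by
  apply Real.le_sqrt_of_sq_le
  nlinarith

theorem nsq_le_of {k : Wv} {z : ℝ} (h : ∀ i, (k i : ℝ) ^ 2 ≤ z) : nsq k ≤ 3 * z := by
  unfold nsq
  calc ∑ i, (k i : ℝ) ^ 2 ≤ ∑ _i : Fin 3, z := Finset.sum_le_sum fun i _ => h i
    _ = 3 * z := by simp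

/-- the growth of the two sides -/
theorem growth {τ C₁ : ℝ} {n e : ℕ}
    (hn : 288 * C₁ * (4 : ℝ) ^ (τ / 2) < ((4 : ℝ) ^ (2 - τ / 2)) ^ n) (ha : 1 < (4 : ℝ) ^ (2 - τ / 2))
    (hne : n ≤ e) : 288 * C₁ * ((4 : ℝ) ^ (e + 1)) ^ (τ / 2) < 16 ^ e := by
  have h1 : ((4 : ℝ) ^ (e + 1)) ^ (τ / 2) = ((4 : ℝ) ^ (τ / 2)) ^ (e + 1) := by
    rw [← Real.rpow_natCast, ← Real.rpow_natCast, ← Real.rpow_mul (by norm_num),
      ← Real.rpow_mul (by norm_num), mul_comm]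
  have h2 : (16 : ℝ) = (4 : ℝ) ^ (τ / 2) * (4 : ℝ) ^ (2 - τ / 2) := by
    rw [← Real.rpow_add (by norm_num)]
    norm_num
  have h3 : ((4 : ℝ) ^ (2 - τ / 2)) ^ n ≤ ((4 : ℝ) ^ (2 - τ / 2)) ^ e :=
    pow_le_pow_right₀ ha.le hne
  have h4 : 0 < ((4 : ℝ) ^ (τ / 2)) ^ e := by positivity
  rw [h1, h2, mul_pow]
  calc 288 * C₁ * ((4 : ℝ) ^ (τ / 2)) ^ (e + 1)
      = (288 * C₁ * (4 : ℝ) ^ (τ / 2)) * ((4 : ℝ) ^ (τ / 2)) ^ e := by ring
    _ < ((4 : ℝ) ^ (2 - τ / 2)) ^ n * ((4 : ℝ) ^ (τ / 2)) ^ e := mul_lt_mul_of_pos_right hn h4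
    _ ≤ ((4 : ℝ) ^ (2 - τ / 2)) ^ e * ((4 : ℝ) ^ (τ / 2)) ^ e :=
        mul_le_mul_of_nonneg_right h3 h4.le
    _ = ((4 : ℝ) ^ (τ / 2)) ^ e * ((4 : ℝ) ^ (2 - τ / 2)) ^ e := mul_comm _ _

/-- the size of a bad triad -/
theorem bad_size {k m : Wv} {Z : ℝ}
    (h1 : ∀ i, (k i : ℝ) ^ 4 / 2 ≤ Z) (h2 : ∀ i, ((k + m) i : ℝ) ^ 4 / 2 ≤ Z) :
    mx k (-(k + m)) m ≤ 12 * Real.sqrt (2 * Z) := by
  have e1 : ∀ i, (k i : ℝ) ^ 2 ≤ Real.sqrt (2 * Z) := fun i => sq_le_of_pow4 (h1 i)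
  have e2 : ∀ i, ((k + m) i : ℝ) ^ 2 ≤ Real.sqrt (2 * Z) := fun i => sq_le_of_pow4 (h2 i)
  have e3 : ∀ i, (m i : ℝ) ^ 2 ≤ 4 * Real.sqrt (2 * Z) := by
    intro i
    have h3 := e1 i
    have h4 := e2 i
    rw [Pi.add_apply] at h4
    push_cast at h4
    nlinarith [sq_nonneg ((2 : ℝ) * (k i : ℝ) + (m i : ℝ))]
  have hs := Real.sqrt_nonneg (2 * Z)
  have f1 := nsq_le_of e1
  have f2 := nsq_le_of e2
  have f3 := nsq_le_of e3
  unfold mx
  rw [asm_nsq_neg]
  refine max_le (by linarith) (max_le (by linarith) (by linarith))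

theorem t_DEGC : S_DEGC := by
  intro hC3 hMON p D hodd hp hsp τ hτ hτ4
  obtain ⟨N, hN⟩ := hsp
  obtain ⟨C, hC0, hC⟩ := hC3 D N
  have hN' : ∀ β : Fin 3 → ℕ, ∃ c : Wv → ℝ, ∑ i, β i = 5 → (∑ y ∈ box N, c y = 0 ∧
      ∀ x : Wv, ∏ i, (x i : ℝ) ^ β i = ∑ y ∈ box N, c y * p (x + y)) := by
    intro β
    by_cases h : ∑ i, β i = 5
    · obtain ⟨c, hc⟩ := hN β h
      exact ⟨c, fun _ => hc⟩
    · exact ⟨0, fun h' => absurd h' h⟩
  choose c hc using hN'
  obtain ⟨C₁, hC₁⟩ : ∃ C₁ : ℝ, C₁ = ∑ β ∈ Fintype.piFinset (fun _ : Fin 3 => Finset.range 6),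
    ∑ y ∈ box N, |c β y| := ⟨_, rfl⟩
  have hC₁β : ∀ β : Fin 3 → ℕ, ∑ i, β i = 5 → ∑ y ∈ box N, |c β y| ≤ C₁ := by
    intro β hβ
    rw [hC₁]
    refine Finset.single_le_sum (f := fun β : Fin 3 → ℕ => ∑ y ∈ box N, |c β y|)
      (fun β _ => Finset.sum_nonneg fun _ _ => abs_nonneg _) ?_
    rw [Fintype.mem_piFinset]
    intro i
    rw [Finset.mem_range]
    have : β i ≤ ∑ i, β i := Finset.single_le_sum (fun _ _ => Nat.zero_le _) (Finset.mem_univ i)
    omega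
  have ha : 1 < (4 : ℝ) ^ (2 - τ / 2) := Real.one_lt_rpow (by norm_num) (by linarith)
  obtain ⟨n, hn⟩ := pow_unbounded_of_one_lt (288 * C₁ * (4 : ℝ) ^ (τ / 2)) ha
  refine ⟨4 * C + ∑ e ∈ Finset.range n, ((cub (2 ^ (e + 1))).card : ℝ), ?_⟩
  intro e m
  have hK0 : (0 : ℝ) ≤ ∑ e ∈ Finset.range n, ((cub (2 ^ (e + 1))).card : ℝ) :=
    Finset.sum_nonneg fun _ _ => Nat.cast_nonneg _
  have h4e : (1 : ℝ) ≤ 4 ^ e := one_le_pow₀ (by norm_num)
  set A := (cub (2 ^ (e + 1))).filter fun k => near p 1 τ k (-(k + m)) m ≠ 0 ∧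
    (4 : ℝ) ^ e ≤ mx k (-(k + m)) m ∧ mx k (-(k + m)) m < (4 : ℝ) ^ (e + 1) with hA
  have hAnear : ∀ k ∈ A, m ≠ 0 ∧ |p k + p (-(k + m)) + p m| < 1 * mx k (-(k + m)) m ^ (τ / 2) := by
    intro k hk
    have h := (Finset.mem_filter.1 hk).2.1
    unfold near at h
    split_ifs at h with h'
    · exact ⟨h'.2.2.1, h'.2.2.2⟩
    · exact absurd rfl h
  set h : ℝ := ((4 : ℝ) ^ (e + 1)) ^ (τ / 2) with hh
  have hh0 : 0 ≤ h := by positivity
  have hP : ∀ k ∈ A, |p k - p (k + m) + p m| ≤ h := by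
    intro k hk
    have h1 := (hAnear k hk).2
    rw [hodd, one_mul, ← sub_eq_add_neg] at h1
    refine h1.le.trans ?_
    refine Real.rpow_le_rpow ?_ (Finset.mem_filter.1 hk).2.2.2.le (by linarith)
    exact le_trans (by positivity) (Finset.mem_filter.1 hk).2.2.1
  have h1 := hC (fun x => p x - p (x + m) + p m) (polyD_P hp m) h (2 ^ (e + 1)) Nat.one_le_two_pow A
    (Finset.filter_subset _ _) hP
  refine h1.trans ?_
  have h2 : (((2 ^ (e + 1) : ℕ) : ℝ)) ^ 2 = 4 * 4 ^ e := by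
    push_cast
    rw [← pow_mul, mul_comm (e + 1) 2, pow_mul]
    norm_num
    ring
  rw [h2, add_mul]
  refine add_le_add (le_of_eq (by ring)) ?_
  by_cases hne : n ≤ e
  · -- large shells
    have h3 : (A.filter fun k => ∀ y ∈ box N, |(fun x => p x - p (x + m) + p m) (k + y)| ≤ h) = ∅ := by
      rw [Finset.filter_eq_empty_iff]
      intro k hk hbad
      obtain ⟨hm, -⟩ := hAnear k hk
      obtain ⟨β, hβ, hβ2⟩ := hMON k (k + m) (by
        intro h
        apply hm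
        have := congrArg (fun x => x - k) h
        simpa using this.symm)
      obtain ⟨hc0, hcx⟩ := hc β hβ
      have h5 : |∏ j, (k j : ℝ) ^ β j - ∏ j, ((k + m) j : ℝ) ^ β j| ≤ C₁ * h := by
        have h6 : ∏ j, (k j : ℝ) ^ β j - ∏ j, ((k + m) j : ℝ) ^ β j =
            ∑ y ∈ box N, c β y * (p (k + y) - p (k + y + m) + p m) := by
          rw [hcx k, hcx (k + m), ← Finset.sum_sub_distrib]
          have h7 : ∑ y ∈ box N, c β y * (p (k + y) - p (k + y + m) + p m) =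
              ∑ y ∈ box N, (c β y * p (k + y) - c β y * p (k + m + y)) +
                (∑ y ∈ box N, c β y) * p m := by
            rw [Finset.sum_mul, ← Finset.sum_add_distrib]
            refine Finset.sum_congr rfl fun y _ => ?_
            rw [add_right_comm k y m]
            ring
          rw [h7, hc0, zero_mul, add_zero]
        rw [h6]
        calc |∑ y ∈ box N, c β y * (p (k + y) - p (k + y + m) + p m)|
            ≤ ∑ y ∈ box N, |c β y * (p (k + y) - p (k + y + m) + p m)| :=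
              Finset.abs_sum_le_sum_abs _ _
          _ ≤ ∑ y ∈ box N, |c β y| * h := by
              refine Finset.sum_le_sum fun y hy => ?_
              rw [abs_mul]
              exact mul_le_mul_of_nonneg_left (hbad y hy) (abs_nonneg _)
          _ = (∑ y ∈ box N, |c β y|) * h := by rw [Finset.sum_mul]
          _ ≤ C₁ * h := mul_le_mul_of_nonneg_right (hC₁β β hβ) hh0
      have h6 := bad_size (k := k) (m := m) (Z := C₁ * h) (fun i => ((hβ2 i).1).trans h5)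
        (fun i => ((hβ2 i).2).trans h5)
      have h7 : (4 : ℝ) ^ e ≤ 12 * Real.sqrt (2 * (C₁ * h)) :=
        (Finset.mem_filter.1 hk).2.2.1.trans h6
      have h8 : 0 ≤ 2 * (C₁ * h) := by
        have := (abs_nonneg _).trans h5
        linarith
      have h9 : ((4 : ℝ) ^ e) ^ 2 ≤ (12 * Real.sqrt (2 * (C₁ * h))) ^ 2 :=
        pow_le_pow_left₀ (by positivity) h7 2
      rw [mul_pow, Real.sq_sqrt h8, ← pow_mul, mul_comm e 2, pow_mul] at h9
      have h10 := growth hn ha hne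
      norm_num at h9
      rw [← hh] at h10
      linarith
    refine le_trans (le_of_eq ?_) (mul_nonneg hK0 (zero_le_one.trans h4e))
    rw [Nat.cast_eq_zero, Finset.card_eq_zero]
    exact h3
  · -- small shells
    have h3 : ((A.filter fun k => ∀ y ∈ box N, |(fun x => p x - p (x + m) + p m) (k + y)| ≤ h).card
        : ℝ) ≤ ((cub (2 ^ (e + 1))).card : ℝ) := by
      exact_mod_cast Finset.card_le_card
        ((Finset.filter_subset _ _).trans (Finset.filter_subset _ _))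
    refine h3.trans ?_
    have h4 : ((cub (2 ^ (e + 1))).card : ℝ) ≤
        ∑ e ∈ Finset.range n, ((cub (2 ^ (e + 1))).card : ℝ) :=
      Finset.single_le_sum (f := fun e => ((cub (2 ^ (e + 1))).card : ℝ))
        (fun _ _ => Nat.cast_nonneg _) (Finset.mem_range.2 (not_le.1 hne))
    refine h4.trans ?_
    exact le_mul_of_one_le_right hK0 h4e

end Pool.Agent.U423.DX.DEGC
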